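import Pool.Agent.W845.GL.Stm

/-!
# Project GL, part R1: first moments
-/

namespace Pool.Agent.W701.GL

open Finset Pool.Agent.W845.GL

/-- functions on `Fin n` and pairs (functions on `Fin k`, functions off the range) -/
noncomputable def splitE {X : Type} {n k : ℕ} (φ : Fin k → Fin n) (hφ : Function.Injective φ) :
    (Fin n → X) ≃ (Fin k → X) × ({i : Fin n // ¬ ∃ u, φ u = i} → X) where
  toFun x := (fun u => x (φ u), fun i => x i.1)
  invFun p := fun i =>
    @dite _ (∃ u, φ u = i) (Classical.propDecidable _) (fun hi => p.1 hi.choose)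
      (fun hi => p.2 ⟨i, hi⟩)
  left_inv x := by
    funext i
    show @dite _ (∃ u, φ u = i) (Classical.propDecidable _) (fun hi => x (φ hi.choose))
        (fun _ => x i) = x i
    by_cases hi : ∃ u, φ u = i
    · rw [dif_pos hi]
      exact congrArg x hi.choose_spec
    · rw [dif_neg hi]
  right_inv p := by
    ext i
    · have hi : ∃ u, φ u = φ i := ⟨i, rfl⟩
      show @dite _ (∃ u, φ u = φ i) (Classical.propDecidable _) (fun hi => p.1 hi.choose)
        (fun hi => p.2 ⟨φ i, hi⟩) = p.1 i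
      rw [dif_pos hi]
      exact congrArg p.1 (hφ hi.choose_spec)
    · show @dite _ (∃ u, φ u = i.1) (Classical.propDecidable _) (fun hi => p.1 hi.choose)
        (fun hi => p.2 ⟨i.1, hi⟩) = p.2 i
      rw [dif_neg i.2]

theorem sum_split {X : Type} [Fintype X] [Nonempty X] {n k : ℕ} (φ : Fin k → Fin n)
    (hφ : Function.Injective φ) (h : (Fin k → X) → ℝ) :
    (∑ x : Fin n → X, h (fun u => x (φ u))) / (Fintype.card X : ℝ) ^ n =
      (∑ y : Fin k → X, h y) / (Fintype.card X : ℝ) ^ k := by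
  classical
  have key : ∀ h : (Fin k → X) → ℝ, (∑ x : Fin n → X, h (fun u => x (φ u))) =
      (Fintype.card ({i : Fin n // ¬ ∃ u, φ u = i} → X) : ℝ) * ∑ y : Fin k → X, h y := by
    intro h
    rw [Fintype.sum_equiv (splitE φ hφ) (fun x => h (fun u => x (φ u))) (fun p => h p.1)
      (fun x => rfl), Fintype.sum_prod_type, Finset.mul_sum]
    refine Finset.sum_congr rfl fun y _ => ?_
    simp only [Finset.sum_const, Finset.card_univ, nsmul_eq_mul]
  have h1 := key (fun _ => 1)
  have hn : (∑ _x : Fin n → X, (1 : ℝ)) = (Fintype.card X : ℝ) ^ n := by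
    simp
  have hk : (∑ _x : Fin k → X, (1 : ℝ)) = (Fintype.card X : ℝ) ^ k := by
    simp
  rw [hn, hk] at h1
  have hM : (Fintype.card ({i : Fin n // ¬ ∃ u, φ u = i} → X) : ℝ) ≠ 0 := by
    have : 0 < Fintype.card ({i : Fin n // ¬ ∃ u, φ u = i} → X) := Fintype.card_pos
    positivity
  rw [key h, h1]
  exact mul_div_mul_left _ _ hM

/-- ordered pair -/
def Q {k n : ℕ} (φ : Fin k → Fin n) (a : Fin k × Fin k) : Fin n × Fin n :=
  if φ a.1 < φ a.2 then (φ a.1, φ a.2) else (φ a.2, φ a.1)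

theorem mem_Eg {k : ℕ} {F : SimpleGraph (Fin k)} {a : Fin k × Fin k} (ha : a ∈ Eg F) :
    a.1 < a.2 ∧ F.Adj a.1 a.2 := by
  classical
  unfold Eg at ha
  exact (Finset.mem_filter.mp ha).2

theorem adj_iff {k n : ℕ} (F : SimpleGraph (Fin k)) (φ : Fin k → Fin n)
    (hφ : Function.Injective φ) (e : Fin n × Fin n → Bool) (a : Fin k × Fin k) (ha : a ∈ Eg F) :
    (GE e).Adj (φ a.1) (φ a.2) ↔ e (Q φ a) = true := by
  have h1 := (mem_Eg ha).1
  have hne : φ a.1 ≠ φ a.2 := fun h => h1.ne (hφ h)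
  unfold Q
  by_cases h : φ a.1 < φ a.2
  · rw [if_pos h]
    constructor
    · rintro (h2 | h2)
      · exact h2.2
      · exact absurd h2.1 (not_lt.mpr h.le)
    · intro h2
      exact Or.inl ⟨h, h2⟩
  · rw [if_neg h]
    have h' : φ a.2 < φ a.1 := lt_of_le_of_ne (not_lt.mp h) hne.symm
    constructor
    · rintro (h2 | h2)
      · exact absurd h2.1 h
      · exact h2.2
    · intro h2
      exact Or.inr ⟨h', h2⟩

theorem Q_inj {k n : ℕ} (F : SimpleGraph (Fin k)) (φ : Fin k → Fin n)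
    (hφ : Function.Injective φ) (a b : Fin k × Fin k) (ha : a ∈ Eg F) (hb : b ∈ Eg F)
    (hab : Q φ a = Q φ b) : a = b := by
  have h1 := (mem_Eg ha).1
  have h2 := (mem_Eg hb).1
  unfold Q at hab
  split_ifs at hab with h3 h4 h4
  · rw [Prod.mk.injEq] at hab
    exact Prod.ext (hφ hab.1) (hφ hab.2)
  · rw [Prod.mk.injEq] at hab
    have e1 := hφ hab.1
    have e2 := hφ hab.2
    rw [e1, e2] at h1
    exact absurd h1 (not_lt.mpr h2.le)
  · rw [Prod.mk.injEq] at hab
    have e1 := hφ hab.1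
    have e2 := hφ hab.2
    rw [e1, e2] at h1
    exact absurd h1 (not_lt.mpr h2.le)
  · rw [Prod.mk.injEq] at hab
    exact Prod.ext (hφ hab.2) (hφ hab.1)

theorem ind_eq {k n : ℕ} (F : SimpleGraph (Fin k)) (φ : Fin k → Fin n)
    (hφ : Function.Injective φ) (e : Fin n × Fin n → Bool) :
    ind F φ e = ∏ q ∈ (Eg F).image (Q φ), (if e q = true then (1 : ℝ) else 0) := by
  rw [Finset.prod_image (fun a ha b hb hab => Q_inj F φ hφ a b ha hb hab)]
  unfold ind
  refine Finset.prod_congr rfl fun a ha => ?_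
  have h1 := adj_iff F φ hφ e a ha
  by_cases h : e (Q φ a) = true
  · rw [if_pos (h1.mpr h), if_pos h]
  · rw [if_neg (fun h2 => h (h1.mp h2)), if_neg h]

theorem r1 : S_R0 → S_R1 := by
  intro h0 X _ _ W hW n k F φ hφ
  have hx : ∀ x : Fin n → X, ∑ e : Fin n × Fin n → Bool, wt W x e * ind F φ e =
      ∏ a ∈ Eg F, W (x (φ a.1)) (x (φ a.2)) := by
    intro x
    have h1 : ∑ e : Fin n × Fin n → Bool, wt W x e * ind F φ e =
        ∑ e : Fin n × Fin n → Bool, wt W x e *
          ∏ q ∈ (Eg F).image (Q φ), (if e q = true then (1 : ℝ) else 0) :=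
      Finset.sum_congr rfl fun e _ => by rw [ind_eq F φ hφ e]
    rw [h1, h0 X W n x ((Eg F).image (Q φ)),
      Finset.prod_image (fun a ha b hb hab => Q_inj F φ hφ a b ha hb hab)]
    refine Finset.prod_congr rfl fun a _ => ?_
    unfold Q
    by_cases h : φ a.1 < φ a.2
    · rw [if_pos h]
    · rw [if_neg h]
      exact hW _ _
  unfold EX tW
  have h2 : ∑ x : Fin n → X, ∑ e : Fin n × Fin n → Bool, wt W x e * ind F φ e =
      ∑ x : Fin n → X, (fun y : Fin k → X => ∏ a ∈ Eg F, W (y a.1) (y a.2))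
        (fun u => x (φ u)) :=
    Finset.sum_congr rfl fun x _ => hx x
  rw [h2]
  exact sum_split φ hφ (fun y : Fin k → X => ∏ a ∈ Eg F, W (y a.1) (y a.2))

end Pool.Agent.W701.GL
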